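import Mathlib
import Pool.Agent.W837.GB.Defs

/-! Project GB: block triangular form of a decomposable tuple (`S_BLOCK`). -/

set_option autoImplicit false
open scoped Matrix

namespace Pool.Agent.W778.GB

open Pool.Agent.W837.GB Module

lemma finrank_comap_eq {V W : Type} [AddCommGroup V] [Module ℂ V] [FiniteDimensional ℂ V]
    [AddCommGroup W] [Module ℂ W] [FiniteDimensional ℂ W] (π : V →ₗ[ℂ] W)
    (hπ : Function.Surjective π) (S : Submodule ℂ W) :
    finrank ℂ (S.comap π) = finrank ℂ (LinearMap.ker π) + finrank ℂ S := by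
  have hm : ∀ x ∈ S.comap π, π x ∈ S := fun x hx => hx
  let f : S.comap π →ₗ[ℂ] S := π.restrict hm
  have h1 := LinearMap.finrank_range_add_finrank_ker f
  have h2 : LinearMap.range f = ⊤ := by
    rw [LinearMap.range_eq_top]
    rintro ⟨y, hy⟩
    obtain ⟨x, rfl⟩ := hπ y
    exact ⟨⟨x, hy⟩, rfl⟩
  have h3 : LinearMap.ker f = (LinearMap.ker π).comap (S.comap π).subtype := by
    ext x
    simp only [LinearMap.mem_ker, Submodule.mem_comap, f]
    rw [← Subtype.coe_inj]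
    rfl
  have h4 : LinearMap.ker π ≤ S.comap π := fun x hx => by
    rw [Submodule.mem_comap, LinearMap.mem_ker.1 hx]
    exact S.zero_mem
  rw [h2, finrank_top, h3, (Submodule.comapSubtypeEquivOfLe h4).finrank_eq] at h1
  omega

lemma exists_equiv {m p q : ℕ} (hm : 1 ≤ m) (hpq : p + q = m) (e : Fin p ⊕ Fin q ≃ Fin m)
    (T : Submodule ℂ (Fin m → ℂ)) (hT : finrank ℂ T = p) :
    ∃ F : (Fin p ⊕ Fin q → ℂ) ≃ₗ[ℂ] (Fin m → ℂ),
      (∀ v, F v ∈ T ↔ ∀ i, v (Sum.inr i) = 0) ∧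
      ‖((LinearMap.toMatrix' (F : (Fin p ⊕ Fin q → ℂ) →ₗ[ℂ] (Fin m → ℂ))).submatrix id
        e.symm).det‖ = 1 ∧
      ‖((LinearMap.toMatrix' (F.symm : (Fin m → ℂ) →ₗ[ℂ] (Fin p ⊕ Fin q → ℂ))).submatrix
        e.symm id).det‖ = 1 := by
  obtain ⟨S, hS⟩ := T.exists_isCompl
  have hdim := Submodule.finrank_add_eq_of_isCompl hS
  rw [hT, finrank_fin_fun] at hdim
  have hSq : finrank ℂ S = q := by omega
  let e1 : (Fin p → ℂ) ≃ₗ[ℂ] T := LinearEquiv.ofFinrankEq _ _ (by rw [hT, finrank_fin_fun])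
  let e2 : (Fin q → ℂ) ≃ₗ[ℂ] S := LinearEquiv.ofFinrankEq _ _ (by rw [hSq, finrank_fin_fun])
  let F0 : (Fin p ⊕ Fin q → ℂ) ≃ₗ[ℂ] (Fin m → ℂ) :=
    (LinearEquiv.sumArrowLequivProdArrow (Fin p) (Fin q) ℂ ℂ).trans
      ((e1.prodCongr e2).trans (T.prodEquivOfIsCompl S hS))
  have hF0 : ∀ v, F0 v = (e1 (fun i => v (Sum.inl i)) : Fin m → ℂ) +
      (e2 (fun i => v (Sum.inr i)) : Fin m → ℂ) := by
    intro v
    simp only [F0, LinearEquiv.trans_apply, Submodule.coe_prodEquivOfIsCompl',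
      LinearEquiv.prodCongr_apply]
    rfl
  -- product of the two matrices
  have hprod : ∀ F : (Fin p ⊕ Fin q → ℂ) ≃ₗ[ℂ] (Fin m → ℂ),
      ((LinearMap.toMatrix' (F : (Fin p ⊕ Fin q → ℂ) →ₗ[ℂ] (Fin m → ℂ))).submatrix id
        e.symm).det *
      ((LinearMap.toMatrix' (F.symm : (Fin m → ℂ) →ₗ[ℂ] (Fin p ⊕ Fin q → ℂ))).submatrix
        e.symm id).det = 1 := by
    intro F
    rw [← Matrix.det_mul, Matrix.submatrix_mul_equiv, ← LinearMap.toMatrix'_comp,
      LinearEquiv.comp_symm]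
    simp
  have hd : ((LinearMap.toMatrix' (F0 : (Fin p ⊕ Fin q → ℂ) →ₗ[ℂ] (Fin m → ℂ))).submatrix id
        e.symm).det ≠ 0 := by
    intro h
    have := hprod F0
    rw [h, zero_mul] at this
    exact zero_ne_one this
  set d := ((LinearMap.toMatrix' (F0 : (Fin p ⊕ Fin q → ℂ) →ₗ[ℂ] (Fin m → ℂ))).submatrix id
        e.symm).det with hd_def
  have hdpos : 0 < ‖d‖ := norm_pos_iff.2 hd
  let r : ℝ := ‖d‖ ^ (-(1 / (m : ℝ)))
  have hr : 0 < r := Real.rpow_pos_of_pos hdpos _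
  have hrc : (r : ℂ) ≠ 0 := by exact_mod_cast hr.ne'
  have hrm : r ^ m * ‖d‖ = 1 := by
    have hm' : (m : ℝ) ≠ 0 := by
      have : (0 : ℝ) < m := by exact_mod_cast hm
      exact this.ne'
    have h1 : r ^ m = ‖d‖⁻¹ := by
      change (‖d‖ ^ (-(1 / (m : ℝ)))) ^ m = _
      rw [← Real.rpow_natCast, ← Real.rpow_mul hdpos.le, neg_mul, one_div,
        inv_mul_cancel₀ hm', Real.rpow_neg_one]
    rw [h1, inv_mul_cancel₀ hdpos.ne']
  let F : (Fin p ⊕ Fin q → ℂ) ≃ₗ[ℂ] (Fin m → ℂ) := F0.trans (LinearEquiv.smulOfNeZero ℂ _ (r : ℂ) hrc)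
  have hF : ∀ v, F v = (r : ℂ) • F0 v := fun v => rfl
  have hmat : (LinearMap.toMatrix' (F : (Fin p ⊕ Fin q → ℂ) →ₗ[ℂ] (Fin m → ℂ))).submatrix id
        e.symm = (r : ℂ) • (LinearMap.toMatrix'
          (F0 : (Fin p ⊕ Fin q → ℂ) →ₗ[ℂ] (Fin m → ℂ))).submatrix id e.symm := by
    ext i j
    simp [LinearMap.toMatrix'_apply, hF]
  have hdet : ‖((LinearMap.toMatrix' (F : (Fin p ⊕ Fin q → ℂ) →ₗ[ℂ] (Fin m → ℂ))).submatrix id
        e.symm).det‖ = 1 := by
    rw [hmat, Matrix.det_smul, norm_mul, norm_pow, Fintype.card_fin, Complex.norm_real,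
      Real.norm_of_nonneg hr.le]
    exact hrm
  refine ⟨F, ?_, hdet, ?_⟩
  · intro v
    rw [hF, Submodule.smul_mem_iff _ hrc, hF0]
    have he1 : (e1 (fun i => v (Sum.inl i)) : Fin m → ℂ) ∈ T := (e1 _).2
    rw [Submodule.add_mem_iff_right _ he1]
    constructor
    · intro h
      have h0 : (e2 (fun i => v (Sum.inr i)) : Fin m → ℂ) = 0 := by
        have := (Submodule.disjoint_def.1 hS.disjoint) _ h (e2 _).2
        exact this
      have h1 : e2 (fun i => v (Sum.inr i)) = 0 := Subtype.ext h0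
      have h2 : (fun i => v (Sum.inr i)) = 0 := by
        have := e2.map_eq_zero_iff.1 h1
        exact this
      exact fun i => congrFun h2 i
    · intro h
      have h2 : (fun i => v (Sum.inr i)) = (0 : Fin q → ℂ) := funext h
      rw [h2, map_zero]
      exact T.zero_mem
  · have h := hprod F
    have h' := congrArg norm h
    rw [norm_mul, hdet, one_mul, norm_one] at h'
    exact h'

/-- inclusion of the first block -/
noncomputable def inc (p q : ℕ) : (Fin p → ℂ) →ₗ[ℂ] (Fin p ⊕ Fin q → ℂ) :=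
  (LinearEquiv.sumArrowLequivProdArrow (Fin p) (Fin q) ℂ ℂ).symm.toLinearMap ∘ₗ
    LinearMap.inl ℂ (Fin p → ℂ) (Fin q → ℂ)

/-- projection to the second block -/
noncomputable def prj (p q : ℕ) : (Fin p ⊕ Fin q → ℂ) →ₗ[ℂ] (Fin q → ℂ) :=
  LinearMap.funLeft ℂ ℂ Sum.inr

lemma inc_inl {p q : ℕ} (v : Fin p → ℂ) (i : Fin p) : inc p q v (Sum.inl i) = v i := rfl

lemma inc_inr {p q : ℕ} (v : Fin p → ℂ) (i : Fin q) : inc p q v (Sum.inr i) = 0 := rfl

lemma prj_apply {p q : ℕ} (v : Fin p ⊕ Fin q → ℂ) (i : Fin q) : prj p q v i = v (Sum.inr i) := rfl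

lemma inc_inj (p q : ℕ) : Function.Injective (inc p q) := by
  intro v w h
  funext i
  have := congrFun h (Sum.inl i)
  simpa [inc_inl] using this

lemma prj_surj (p q : ℕ) : Function.Surjective (prj p q) :=
  LinearMap.funLeft_surjective_of_injective ℂ ℂ _ Sum.inr_injective

lemma ker_prj (p q : ℕ) : finrank ℂ (LinearMap.ker (prj p q)) = p := by
  have h := LinearMap.finrank_range_add_finrank_ker (prj p q)
  rw [LinearMap.range_eq_top.2 (prj_surj p q), finrank_top, finrank_fin_fun,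
    finrank_fintype_fun_eq_card, Fintype.card_sum, Fintype.card_fin, Fintype.card_fin] at h
  omega

theorem block : S_BLOCK := by
  intro n m a hm hNd hInd
  -- `imS a ⊤ = ⊤`
  have htop : imS a ⊤ = ⊤ := by
    apply Submodule.eq_top_of_finrank_eq
    have h := hNd ⊤
    rw [finrank_top] at h
    exact le_antisymm (Submodule.finrank_le _) h
  obtain ⟨T, hT0, hT1, hT⟩ : ∃ T : Submodule ℂ (Fin m → ℂ), T ≠ ⊥ ∧ T ≠ ⊤ ∧
      finrank ℂ (imS a T) ≤ finrank ℂ T := by
    by_contra hcon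
    push Not at hcon
    exact hInd ⟨htop, hcon⟩
  have hTe : finrank ℂ (imS a T) = finrank ℂ T := le_antisymm hT (hNd T)
  have hp : 1 ≤ finrank ℂ T := by
    rw [Nat.one_le_iff_ne_zero, Ne, Submodule.finrank_eq_zero]
    exact hT0
  have hpm : finrank ℂ T < m := by
    have := Submodule.finrank_lt hT1
    rwa [finrank_fin_fun] at this
  obtain ⟨p, hpdef⟩ : ∃ p, finrank ℂ T = p := ⟨_, rfl⟩
  rw [hpdef] at hp hpm hTe
  obtain ⟨q, hq⟩ : ∃ q, p + q = m := ⟨m - p, by omega⟩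
  let e : Fin p ⊕ Fin q ≃ Fin m := finSumFinEquiv.trans (finCongr hq)
  obtain ⟨FV, hFV, hFVd, _⟩ := exists_equiv hm hq e T hpdef
  obtain ⟨FU, hFU, _, hFUd⟩ := exists_equiv hm hq e (imS a T) hTe
  -- the maps in the new coordinates
  let ψ : Fin n → (Fin p ⊕ Fin q → ℂ) →ₗ[ℂ] (Fin p ⊕ Fin q → ℂ) := fun j =>
    (FU.symm : (Fin m → ℂ) →ₗ[ℂ] (Fin p ⊕ Fin q → ℂ)) ∘ₗ (Matrix.mulVecLin (a j)) ∘ₗ
      (FV : (Fin p ⊕ Fin q → ℂ) →ₗ[ℂ] (Fin m → ℂ))
  let B : Fin n → Matrix (Fin p ⊕ Fin q) (Fin p ⊕ Fin q) ℂ := fun j => LinearMap.toMatrix' (ψ j)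
  have hB : ∀ j v, (B j) *ᵥ v = ψ j v := fun j v => by
    change (LinearMap.toMatrix' (ψ j)) *ᵥ v = _
    exact LinearMap.toMatrix'_mulVec (ψ j) v
  have hψinl : ∀ j (v : Fin p → ℂ) (i : Fin q), ψ j (inc p q v) (Sum.inr i) = 0 := by
    intro j v i
    have h1 : FV (inc p q v) ∈ T := (hFV _).2 fun i => inc_inr v i
    have h2 : (a j) *ᵥ (FV (inc p q v)) ∈ imS a T := by
      refine Submodule.mem_iSup_of_mem j ?_
      exact ⟨_, h1, rfl⟩
    have h3 := (hFU (ψ j (inc p q v))).1 (by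
      change FU (FU.symm ((a j) *ᵥ (FV (inc p q v)))) ∈ _
      rw [LinearEquiv.apply_symm_apply]
      exact h2)
    exact h3 i
  have h21 : ∀ j, (B j).toBlocks₂₁ = 0 := by
    intro j
    ext i k
    have h := hψinl j (Pi.single k 1) i
    rw [← hB] at h
    have h5 : inc p q (Pi.single k 1) = Pi.single (Sum.inl k) 1 := by
      funext s
      rcases s with s | s
      · rw [inc_inl]
        simp [Pi.single_apply]
      · rw [inc_inr]
        simp
    rw [h5, Matrix.mulVec_single_one] at h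
    exact h
  have hblk : ∀ j, B j = Matrix.fromBlocks (B j).toBlocks₁₁ (B j).toBlocks₁₂ 0 (B j).toBlocks₂₂ := by
    intro j
    conv_lhs => rw [← Matrix.fromBlocks_toBlocks (B j), h21 j]
  -- rank property of `ψ`
  have hrk : ∀ S : Submodule ℂ (Fin p ⊕ Fin q → ℂ),
      finrank ℂ S ≤ finrank ℂ (⨆ j, S.map (ψ j) : Submodule ℂ (Fin p ⊕ Fin q → ℂ)) := by
    intro S
    have h1 : (⨆ j, S.map (ψ j)) = (imS a (S.map (FV : (Fin p ⊕ Fin q → ℂ) →ₗ[ℂ] (Fin m → ℂ)))).map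
        (FU.symm : (Fin m → ℂ) →ₗ[ℂ] (Fin p ⊕ Fin q → ℂ)) := by
      unfold imS
      rw [Submodule.map_iSup]
      refine iSup_congr fun j => ?_
      rw [← Submodule.map_comp, ← Submodule.map_comp]
      rfl
    rw [h1, LinearEquiv.finrank_map_eq FU.symm]
    calc finrank ℂ S = finrank ℂ (S.map (FV : (Fin p ⊕ Fin q → ℂ) →ₗ[ℂ] (Fin m → ℂ))) :=
          (LinearEquiv.finrank_map_eq FV S).symm
      _ ≤ _ := hNd _
  refine ⟨p, q, e, (LinearMap.toMatrix' (FU.symm : (Fin m → ℂ) →ₗ[ℂ] (Fin p ⊕ Fin q → ℂ))).submatrix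
      e.symm id, (LinearMap.toMatrix' (FV : (Fin p ⊕ Fin q → ℂ) →ₗ[ℂ] (Fin m → ℂ))).submatrix id
      e.symm, fun j => (B j).toBlocks₁₁, fun j => (B j).toBlocks₁₂, fun j => (B j).toBlocks₂₂,
      hp, by omega, hq, hFUd, hFVd, ?_, ?_, ?_⟩
  · intro j
    rw [← hblk j]
    have h1 : B j = LinearMap.toMatrix' (FU.symm : (Fin m → ℂ) →ₗ[ℂ] (Fin p ⊕ Fin q → ℂ)) *
        (a j * LinearMap.toMatrix' (FV : (Fin p ⊕ Fin q → ℂ) →ₗ[ℂ] (Fin m → ℂ))) := by
      change LinearMap.toMatrix' (_ ∘ₗ _ ∘ₗ _) = _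
      rw [LinearMap.toMatrix'_comp, LinearMap.toMatrix'_comp]
      congr 2
      exact LinearMap.toMatrix'_toLin' (a j)
    rw [h1, Matrix.reindex_apply, Matrix.mul_assoc]
    rfl
  · intro S
    have h := hrk (S.map (inc p q))
    have h1 : (⨆ j, (S.map (inc p q)).map (ψ j)) =
        (imS (fun j => (B j).toBlocks₁₁) S).map (inc p q) := by
      unfold imS
      rw [Submodule.map_iSup]
      refine iSup_congr fun j => ?_
      rw [← Submodule.map_comp, ← Submodule.map_comp]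
      congr 1
      apply LinearMap.ext
      intro v
      funext s
      change ψ j (inc p q v) s = inc p q ((B j).toBlocks₁₁ *ᵥ v) s
      rcases s with s | s
      · rw [inc_inl, ← hB]
        simp only [Matrix.mulVec, dotProduct, Fintype.sum_sum_type, inc_inl, inc_inr, mul_zero,
          Finset.sum_const_zero, add_zero, Matrix.toBlocks₁₁, Matrix.of_apply]
      · rw [inc_inr]
        exact hψinl j v s
    have hfr : ∀ R : Submodule ℂ (Fin p → ℂ), finrank ℂ (R.map (inc p q)) = finrank ℂ R :=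
      fun R => (Submodule.equivMapOfInjective (inc p q) (inc_inj p q) R).finrank_eq.symm
    rw [h1, hfr, hfr] at h
    exact h
  · intro S
    have h := hrk (S.comap (prj p q))
    have h1 : (⨆ j, (S.comap (prj p q)).map (ψ j)) ≤
        (imS (fun j => (B j).toBlocks₂₂) S).comap (prj p q) := by
      refine iSup_le fun j => ?_
      rintro _ ⟨v, hv, rfl⟩
      rw [Submodule.mem_comap]
      refine Submodule.mem_iSup_of_mem j ⟨prj p q v, hv, ?_⟩
      funext s
      change ((B j).toBlocks₂₂ *ᵥ (prj p q v)) s = ψ j v (Sum.inr s)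
      rw [← hB]
      have h0 : ∀ k, B j (Sum.inr s) (Sum.inl k) = 0 := fun k => by
        have := congrFun (congrFun (h21 j) s) k
        exact this
      simp only [Matrix.mulVec, dotProduct, Fintype.sum_sum_type, h0, zero_mul,
          Finset.sum_const_zero, zero_add, Matrix.toBlocks₂₂, Matrix.of_apply, prj_apply]
    have h2 := h.trans (Submodule.finrank_mono h1)
    rw [finrank_comap_eq _ (prj_surj p q), finrank_comap_eq _ (prj_surj p q)] at h2
    omega

end Pool.Agent.W778.GB
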